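import Mathlib
import Pool.Agent.Lib_helper15.Bishop.Defs

set_option autoImplicit false

universe u

namespace Pool.Agent.Bishop

open MeasureTheory Set Filter
open scoped ENNReal NNReal Topology

theorem coord_coe (x : ℝ) : coord (x : UnitAddCircle) = Int.fract x := by
  have h := AddCircle.coe_equivIco_mk_apply (p := (1 : ℝ)) x
  unfold coord
  rw [mul_one, div_one] at h
  exact h

theorem measurable_coord : Measurable coord :=
  measurable_subtype_coe.comp (AddCircle.measurableEquivIco (1 : ℝ) 0).measurable

theorem coord_nonneg (t : UnitAddCircle) : 0 ≤ coord t := by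
  have := (AddCircle.equivIco (1 : ℝ) 0 t).2.1
  exact this

theorem coord_lt_one (t : UnitAddCircle) : coord t < 1 := by
  have h : coord t < 0 + 1 := (AddCircle.equivIco (1 : ℝ) 0 t).2.2
  linarith

theorem coe_coord (t : UnitAddCircle) : ((coord t : ℝ) : UnitAddCircle) = t :=
  AddCircle.coe_equivIco

theorem coord_eq_zero_iff (t : UnitAddCircle) : coord t = 0 ↔ t = 0 := by
  constructor
  · intro h
    rw [← coe_coord t, h]; simp
  · rintro rfl
    have := coord_coe 0
    simpa using this

theorem coord_ne_zero_ae : ∀ᵐ t : UnitAddCircle, coord t ≠ 0 := by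
  have h : (volume : Measure UnitAddCircle) {0} = 0 := by
    rw [AddCircle.add_projection_respects_measure (1 : ℝ) 0 (measurableSet_singleton _)]
    refine measure_mono_null (t := {1}) ?_ (by simp)
    rintro x ⟨hx1, hx2⟩
    simp only [mem_preimage, mem_singleton_iff] at hx1
    have h0 : coord ((x : ℝ) : UnitAddCircle) = 0 := (coord_eq_zero_iff _).mpr hx1
    rw [coord_coe] at h0
    rw [zero_add] at hx2
    rcases lt_or_eq_of_le hx2.2 with h1 | h1
    · rw [Int.fract_eq_self.mpr ⟨hx2.1.le, h1⟩] at h0
      exact absurd h0 hx2.1.ne'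
    · exact h1
  rw [ae_iff]
  refine measure_mono_null ?_ h
  intro t ht
  simp only [ne_eq, not_not, mem_ofPred_eq] at ht
  exact (coord_eq_zero_iff t).mp ht

theorem log_coord_nonpos (t : UnitAddCircle) : Real.log (coord t) ≤ 0 :=
  Real.log_nonpos (coord_nonneg t) (coord_lt_one t).le

theorem measurable_log_coord : Measurable fun t : UnitAddCircle => Real.log (coord t) :=
  Real.measurable_log.comp measurable_coord

theorem integrable_log_coord :
    Integrable (fun t : UnitAddCircle => Real.log (coord t)) volume := by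
  have hmp := AddCircle.measurePreserving_mk (1 : ℝ) 0
  rw [← hmp.integrable_comp measurable_log_coord.aestronglyMeasurable]
  have h1 : IntegrableOn Real.log (Ioc (0 : ℝ) (0 + 1)) volume := by
    have := (intervalIntegral.intervalIntegrable_log' (a := (0 : ℝ)) (b := 0 + 1))
    rwa [intervalIntegrable_iff_integrableOn_Ioc_of_le (by norm_num)] at this
  refine (integrable_congr ?_).mpr h1
  have h2 : ∀ᵐ x ∂(volume.restrict (Ioc (0 : ℝ) (0 + 1))), x ≠ 1 :=
    ae_restrict_of_ae (Measure.ae_ne volume 1)
  filter_upwards [h2, ae_restrict_mem measurableSet_Ioc] with x hx hx2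
  simp only [Function.comp]
  rw [coord_coe, Int.fract_eq_self.mpr ⟨hx2.1.le, lt_of_le_of_ne (by simpa using hx2.2) hx⟩]

/-- the truncated logarithm. -/
theorem integral_trunc {u : ℝ} (hu0 : 0 ≤ u) (hu1 : u ≤ 1) :
    ∫ t : UnitAddCircle, (if coord t < u then - Real.log (coord t) else 0)
      = u - u * Real.log u := by
  rw [← AddCircle.integral_preimage (1 : ℝ) 0]
  have h1 : ∫ a in Ioc (0 : ℝ) (0 + 1), (if coord (a : UnitAddCircle) < u then
      - Real.log (coord (a : UnitAddCircle)) else 0)
      = ∫ a in Ioc (0 : ℝ) 1, (Iio u).indicator (fun x => - Real.log x) a := by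
    rw [zero_add]
    apply setIntegral_congr_ae measurableSet_Ioc
    filter_upwards [Measure.ae_ne volume (1 : ℝ)] with x hx hx2
    rw [coord_coe, Int.fract_eq_self.mpr ⟨hx2.1.le, lt_of_le_of_ne hx2.2 hx⟩]
    simp only [Set.indicator, Set.mem_Iio]
  rw [h1, setIntegral_indicator measurableSet_Iio]
  have h2 : Ioc (0 : ℝ) 1 ∩ Iio u = Ioo 0 u := by
    ext x
    simp only [mem_inter_iff, mem_Ioc, mem_Iio, mem_Ioo]
    constructor
    · rintro ⟨⟨a, b⟩, c⟩; exact ⟨a, c⟩
    · rintro ⟨a, c⟩; exact ⟨⟨a, by linarith⟩, c⟩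
  rw [h2, ← integral_Ioc_eq_integral_Ioo, ← intervalIntegral.integral_of_le hu0,
    intervalIntegral.integral_neg, integral_log]
  simp

theorem integrable_trunc (u : ℝ) :
    Integrable (fun t : UnitAddCircle => if coord t < u then - Real.log (coord t) else 0)
      volume := by
  have h := (integrable_log_coord.neg).indicator (measurable_coord (measurableSet_Iio (a := u)))
  refine h.congr (Eventually.of_forall fun t => ?_)
  by_cases ht : coord t < u
  · simp [Set.indicator, ht]
  · simp [Set.indicator, ht]

theorem coord_add_le {u : ℝ} (hu0 : 0 ≤ u) (hu1 : u ≤ 1) (t : UnitAddCircle)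
    (h : u ≤ coord (t + (u : UnitAddCircle))) : coord t ≤ coord (t + (u : UnitAddCircle)) := by
  obtain ⟨x, hx⟩ : ∃ x : ℝ, coord t = x := ⟨_, rfl⟩
  have hx0 : 0 ≤ x := hx ▸ coord_nonneg t
  have hx1 : x < 1 := hx ▸ coord_lt_one t
  have ht : t = (x : UnitAddCircle) := by rw [← hx, coe_coord]
  have h2 : t + (u : UnitAddCircle) = ((x + u : ℝ) : UnitAddCircle) := by rw [ht]; rfl
  rw [h2, coord_coe] at h ⊢
  rw [hx]
  by_cases h3 : x + u < 1
  · rw [Int.fract_eq_self.mpr ⟨by linarith, h3⟩]; linarith
  · exfalso
    have h4 : Int.fract (x + u) = x + u - 1 := by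
      rw [← Int.fract_sub_one, Int.fract_eq_self.mpr ⟨by linarith, by linarith⟩]
    rw [h4] at h
    linarith

/-- the `L^1` modulus of continuity of `log` on the circle, nonnegative shifts. -/
theorem modulus_nonneg {u : ℝ} (hu0 : 0 ≤ u) (hu1 : u ≤ 1) :
    ∫ t : UnitAddCircle, |Real.log (coord (t + (u : UnitAddCircle))) - Real.log (coord t)|
      ≤ 2 * (u - u * Real.log u) := by
  set L : UnitAddCircle → ℝ := fun t => Real.log (coord t) with hL
  have hLi : Integrable L volume := integrable_log_coord
  have hLs : Integrable (fun t => L (t + (u : UnitAddCircle))) volume :=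
    hLi.comp_add_right (u : UnitAddCircle)
  set K : UnitAddCircle → ℝ := fun t => if coord t < u then - Real.log (coord t) else 0 with hK
  have hKi : Integrable K volume := integrable_trunc u
  have hKs : Integrable (fun t => K (t + (u : UnitAddCircle))) volume :=
    hKi.comp_add_right (u : UnitAddCircle)
  have hpt : ∀ᵐ t : UnitAddCircle, |L (t + (u : UnitAddCircle)) - L t|
      ≤ (L (t + (u : UnitAddCircle)) - L t) + 2 * K (t + (u : UnitAddCircle)) := by
    filter_upwards [coord_ne_zero_ae] with t ht
    have ht0 : 0 < coord t := lt_of_le_of_ne (coord_nonneg t) (Ne.symm ht)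
    have hLt : L t ≤ 0 := log_coord_nonpos t
    have hLtu : L (t + (u : UnitAddCircle)) ≤ 0 := log_coord_nonpos _
    by_cases h : coord (t + (u : UnitAddCircle)) < u
    · have hKe : K (t + (u : UnitAddCircle)) = - L (t + (u : UnitAddCircle)) := by
        simp only [hK, hL, if_pos h]
      rw [hKe, abs_le]
      constructor <;> linarith
    · have hKe : K (t + (u : UnitAddCircle)) = 0 := by
        simp only [hK, if_neg h]
      have hle := coord_add_le hu0 hu1 t (not_lt.mp h)
      have hlog : L t ≤ L (t + (u : UnitAddCircle)) := Real.log_le_log ht0 hle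
      rw [hKe, abs_of_nonneg (by linarith)]
      linarith
  calc ∫ t : UnitAddCircle, |L (t + (u : UnitAddCircle)) - L t|
      ≤ ∫ t : UnitAddCircle, ((L (t + (u : UnitAddCircle)) - L t)
          + 2 * K (t + (u : UnitAddCircle))) :=
        integral_mono_ae (hLs.sub hLi).abs ((hLs.sub hLi).add (hKs.const_mul 2)) hpt
    _ = ((∫ t : UnitAddCircle, L (t + (u : UnitAddCircle))) - (∫ t : UnitAddCircle, L t))
          + 2 * (∫ t : UnitAddCircle, K (t + (u : UnitAddCircle))) := by
        have e1 : ∫ t : UnitAddCircle, ((L (t + (u : UnitAddCircle)) - L t)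
            + 2 * K (t + (u : UnitAddCircle)))
            = (∫ t : UnitAddCircle, (L (t + (u : UnitAddCircle)) - L t))
              + ∫ t : UnitAddCircle, 2 * K (t + (u : UnitAddCircle)) :=
          integral_add (hLs.sub hLi) (hKs.const_mul 2)
        rw [e1, integral_sub hLs hLi, integral_const_mul]
    _ = 2 * (u - u * Real.log u) := by
        rw [integral_add_right_eq_self L, integral_add_right_eq_self K, sub_self, zero_add,
          hK, integral_trunc hu0 hu1]

theorem modulus_abs {u : ℝ} (hu1 : |u| ≤ 1) :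
    ∫ t : UnitAddCircle, |Real.log (coord (t + (u : UnitAddCircle))) - Real.log (coord t)|
      ≤ 2 * (|u| - |u| * Real.log |u|) := by
  rcases le_or_gt 0 u with hu | hu
  · rw [abs_of_nonneg hu] at hu1 ⊢
    exact modulus_nonneg hu hu1
  · rw [abs_of_neg hu] at hu1 ⊢
    have h := modulus_nonneg (u := -u) (by linarith) hu1
    refine le_of_eq_of_le ?_ h
    rw [← integral_add_right_eq_self (fun t : UnitAddCircle =>
      |Real.log (coord (t + (u : UnitAddCircle))) - Real.log (coord t)|)
        (((-u : ℝ)) : UnitAddCircle)]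
    congr 1
    funext t
    have h1 : t + (((-u : ℝ)) : UnitAddCircle) + (u : UnitAddCircle) = t := by
      rw [add_assoc, ← AddCircle.coe_add]; simp
    rw [h1, abs_sub_comm]

theorem monotone_aux {u v : ℝ} (hu : 0 ≤ u) (huv : u ≤ v) (hv : v ≤ 1) :
    u - u * Real.log u ≤ v - v * Real.log v := by
  -- `v log v - u log u ≤ v - u`: since `log v ≤ 0`
  rcases hu.eq_or_lt with rfl | hu0
  · have : Real.log v ≤ 0 := Real.log_nonpos huv hv
    simp only [zero_mul, sub_zero]
    nlinarith
  · have hv0 : 0 < v := lt_of_lt_of_le hu0 huv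
    have h1 : Real.log v ≤ 0 := Real.log_nonpos hv0.le hv
    -- u log (v/u) ≤ v - u
    have h2 : Real.log v - Real.log u ≤ v / u - 1 := by
      rw [← Real.log_div hv0.ne' hu0.ne']
      exact Real.log_le_sub_one_of_pos (div_pos hv0 hu0)
    have h3 : u * (Real.log v - Real.log u) ≤ v - u := by
      calc u * (Real.log v - Real.log u) ≤ u * (v / u - 1) :=
            mul_le_mul_of_nonneg_left h2 hu0.le
        _ = v - u := by field_simp
    nlinarith

theorem modW : ModW := by
  refine ⟨measurable_coord, fun t => ?_, coord_ne_zero_ae, integrable_log_coord,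
    fun j => 2 * ((1 / 2) ^ j + (1 / 2) ^ j * (j * Real.log 2)), ?_, ?_⟩
  · rw [abs_of_nonneg (coord_nonneg t)]
    exact (coord_lt_one t).le
  · have h0 := summable_pow_mul_geometric_of_norm_lt_one (R := ℝ) 0 (r := 1 / 2)
      (by norm_num)
    have h1 := summable_pow_mul_geometric_of_norm_lt_one (R := ℝ) 1 (r := 1 / 2)
      (by norm_num)
    have h2 := summable_pow_mul_geometric_of_norm_lt_one (R := ℝ) 2 (r := 1 / 2)
      (by norm_num)
    have h3 := ((h0.mul_left 2).add (h1.mul_left (2 + 2 * Real.log 2))).add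
      (h2.mul_left (2 * Real.log 2))
    refine h3.congr fun j => ?_
    ring
  · intro j u hu
    have hpow : (1 : ℝ) / 2 ^ j ≤ 1 := by
      rw [div_le_one (by positivity)]
      exact one_le_pow₀ (by norm_num)
    refine (modulus_abs (hu.trans hpow)).trans ?_
    have h := monotone_aux (abs_nonneg u) hu hpow
    have h2 : Real.log (1 / 2 ^ j : ℝ) = - (j * Real.log 2) := by
      rw [one_div, Real.log_inv, Real.log_pow]
    rw [h2] at h
    have h3 : (1 / 2 : ℝ) ^ j = 1 / 2 ^ j := by rw [div_pow, one_pow]
    simp only [h3]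
    linarith

end Pool.Agent.Bishop
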