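import Mathlib
import Pool.Agent.Lib_helper15.Bishop.Defs

set_option autoImplicit false

universe u

namespace Pool.Agent.Bishop

open MeasureTheory Set Filter TopologicalSpace
open scoped ENNReal NNReal Topology

/-- one step: a measurable map without fixed points (a.e.) moves some subset of positive measure
off itself. -/
theorem exists_disjoint_preimage {X : Type u} [TopologicalSpace X] [SecondCountableTopology X]
    [T2Space X] [MeasurableSpace X] [BorelSpace X] (μ : Measure X) (θ : X → X)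
    (hθ : Measurable θ) (hne : ∀ᵐ t ∂μ, θ t ≠ t) (G : Set X) (hG : MeasurableSet G)
    (hG0 : μ G ≠ 0) :
    ∃ G' ⊆ G, MeasurableSet G' ∧ μ G' ≠ 0 ∧ Disjoint G' (θ ⁻¹' G') := by
  classical
  set B := countableBasis X with hB
  have hBc : B.Countable := countable_countableBasis X
  have hBb : IsTopologicalBasis B := isBasis_countableBasis X
  by_contra hcon
  push Not at hcon
  -- the union of all the pieces
  have key : ∀ U ∈ B, ∀ V ∈ B, Disjoint U V → μ (G ∩ U ∩ θ ⁻¹' V) = 0 := by
    intro U hU V hV hUV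
    by_contra h0
    have hm : MeasurableSet (G ∩ U ∩ θ ⁻¹' V) :=
      (hG.inter (hBb.isOpen hU).measurableSet).inter (hθ (hBb.isOpen hV).measurableSet)
    refine hcon (G ∩ U ∩ θ ⁻¹' V) (fun x hx => hx.1.1) hm h0 ?_
    rw [Set.disjoint_left]
    rintro t ⟨⟨_, _⟩, ht3⟩ ⟨⟨_, ht5⟩, _⟩
    exact Set.disjoint_left.mp hUV ht5 ht3
  have hcov : G ⊆ {t | ¬ (θ t ≠ t)} ∪
      ⋃ U ∈ B, ⋃ V ∈ B, (if Disjoint U V then (G ∩ U ∩ θ ⁻¹' V) else ∅) := by
    intro t ht
    by_cases h : θ t = t
    · left; simpa using h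
    · right
      obtain ⟨u, v, hu, hv, htu, htv, huv⟩ := t2_separation (Ne.symm h)
      obtain ⟨U, hU, htU, hUu⟩ := hBb.exists_subset_of_mem_open htu hu
      obtain ⟨V, hV, htV, hVv⟩ := hBb.exists_subset_of_mem_open htv hv
      simp only [Set.mem_iUnion]
      refine ⟨U, hU, V, hV, ?_⟩
      have hUV : Disjoint U V := huv.mono hUu hVv
      rw [if_pos hUV]
      exact ⟨⟨ht, htU⟩, htV⟩
  apply hG0
  refine measure_mono_null hcov (measure_union_null ?_ ?_)
  · exact ae_iff.mp hne
  · rw [measure_biUnion_null_iff hBc]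
    intro U hU
    rw [measure_biUnion_null_iff hBc]
    intro V hV
    split_ifs with h
    · exact key U hU V hV h
    · simp

theorem modA : ModA.{u} := by
  intro X _ _ _ _ _ μ _ τ hτ hτs hne G hG hG0 N
  classical
  -- powers are measurable
  have hpow : ∀ n : ℕ, Measurable (τ ^ n : Equiv.Perm X) := by
    intro n
    induction n with
    | zero => simpa using measurable_id
    | succ n ih => rw [pow_succ]; exact ih.comp hτ
  have hpows : ∀ n : ℕ, Measurable (τ⁻¹ ^ n : Equiv.Perm X) := by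
    intro n
    induction n with
    | zero => simpa using measurable_id
    | succ n ih => rw [pow_succ]; exact ih.comp hτs
  have hzpow : ∀ n : ℤ, Measurable (τ ^ n : Equiv.Perm X) := by
    intro n
    obtain ⟨m, rfl | rfl⟩ := n.eq_nat_or_neg
    · simpa using hpow m
    · have := hpows m
      rw [inv_pow] at this
      simpa [zpow_neg] using this
  -- finite measure
  obtain ⟨G₀, hG₀, hG₀m, hG₀0, hG₀f⟩ : ∃ G₀ ⊆ G, MeasurableSet G₀ ∧ μ G₀ ≠ 0 ∧ μ G₀ < ∞ := by
    by_contra hcon
    push Not at hcon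
    apply hG0
    have hcov : G ⊆ ⋃ n, G ∩ spanningSets μ n := by
      rw [← Set.inter_iUnion, iUnion_spanningSets, Set.inter_univ]
    refine measure_mono_null hcov (measure_iUnion_null fun n => ?_)
    by_contra h0
    have h1 := hcon (G ∩ spanningSets μ n) Set.inter_subset_left
      (hG.inter (measurableSet_spanningSets μ n)) h0
    have h2 : μ (G ∩ spanningSets μ n) < ∞ :=
      lt_of_le_of_lt (measure_mono Set.inter_subset_right) (measure_spanningSets_lt_top μ n)
    exact absurd h2 (not_lt.mpr h1)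
  -- iterate over a finite set
  have hfin : ∀ F : Finset ℤ, (∀ n ∈ F, n ≠ 0) → ∃ G' ⊆ G₀, MeasurableSet G' ∧ μ G' ≠ 0 ∧
      ∀ n ∈ F, Disjoint G' ((τ ^ n : Equiv.Perm X) ⁻¹' G') := by
    intro F
    induction F using Finset.induction_on with
    | empty => intro _; exact ⟨G₀, subset_rfl, hG₀m, hG₀0, by simp⟩
    | insert a F ha ih =>
      intro hF
      obtain ⟨G₁, h1, h2, h3, h4⟩ := ih (fun n hn => hF n (Finset.mem_insert_of_mem hn))
      obtain ⟨G₂, k1, k2, k3, k4⟩ := exists_disjoint_preimage μ (τ ^ a : Equiv.Perm X) (hzpow a)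
        (hne a (hF a (Finset.mem_insert_self _ _))) G₁ h2 h3
      refine ⟨G₂, k1.trans h1, k2, k3, ?_⟩
      intro n hn
      rcases Finset.mem_insert.mp hn with rfl | hn
      · exact k4
      · exact (h4 n hn).mono k1 (Set.preimage_mono k1)
  obtain ⟨G', h1, h2, h3, h4⟩ := hfin ((Finset.Icc (-(N : ℤ)) N).filter (fun n => n ≠ 0))
    (fun n hn => (Finset.mem_filter.mp hn).2)
  refine ⟨G', h1.trans hG₀, h2, h3, lt_of_le_of_lt (measure_mono h1) hG₀f, ?_⟩
  intro n hn hnN
  refine h4 n (Finset.mem_filter.mpr ⟨?_, hn⟩)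
  rw [Finset.mem_Icc]
  exact abs_le.mp hnN

end Pool.Agent.Bishop
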